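import Mathlib

/-!
Conjugates from permutations: the field theoretic part (for MP_ed3ef1_nt, task T6 and T10).
-/

set_option autoImplicit false

namespace Pool.Agent.Y655.Sm

section

variable {K M : Type} [Field K] [Field M] [Algebra K M]

/-- From a Galois extension with the symmetric group to linear relations between conjugates. -/
theorem conj_of_perm [Normal K M] {N : ℕ} (ψ : (M ≃ₐ[K] M) ≃* Equiv.Perm (Fin N))
    {n : ℕ} (a : Fin n → K) (x : Fin N → Fin n → K) (π : Fin n → Equiv.Perm (Fin N))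
    (v : Fin N → K) (hx : ∀ i e, x e i = v (π i e)) (ha : ∀ e, ∑ i, a i * x e i = 0)
    (hv : ∃ e, v e ≠ 0) :
    ∃ α : Fin n → M, (∀ i, α i ≠ 0) ∧ (∀ i j, minpoly K (α i) = minpoly K (α j)) ∧
      ∑ i, algebraMap K M (a i) * α i = 0 := by
  classical
  obtain ⟨o, ho⟩ := hv
  have hfin : Finite (M ≃ₐ[K] M) := Finite.of_equiv _ ψ.symm.toEquiv
  let hft : Fintype (M ≃ₐ[K] M) := Fintype.ofFinite _
  -- the resolvents
  let θ : M → Fin N → M := fun η j => ∑ g : M ≃ₐ[K] M, if ψ g o = j then g η else 0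
  have hθ : ∀ (η : M) (h : M ≃ₐ[K] M) (j : Fin N), h (θ η j) = θ η (ψ h j) := by
    intro η h j
    simp only [θ, map_sum]
    rw [← Equiv.sum_comp (Equiv.mulLeft h)
      (fun g : M ≃ₐ[K] M => if ψ g o = ψ h j then g η else 0)]
    refine Finset.sum_congr rfl fun g _ => ?_
    have h1 : (ψ ((Equiv.mulLeft h) g) o = ψ h j) ↔ (ψ g o = j) := by
      rw [Equiv.coe_mulLeft, map_mul, Equiv.Perm.mul_apply, EmbeddingLike.apply_eq_iff_eq]
    by_cases h2 : ψ g o = j
    · rw [if_pos h2, if_pos (h1.2 h2)]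
      rfl
    · rw [if_neg h2, if_neg (fun h3 => h2 (h1.1 h3)), map_zero]
  have hne : ∃ η : M, ∑ j, algebraMap K M (v j) * θ η j ≠ 0 := by
    by_contra hcon
    push Not at hcon
    have hli : LinearIndependent M (fun g : M ≃ₐ[K] M => ((g : M →* M) : M → M)) := by
      have h0 := linearIndependent_monoidHom M M
      refine h0.comp (fun g : M ≃ₐ[K] M => (g : M →* M)) ?_
      intro g g' hgg
      ext z
      exact DFunLike.congr_fun hgg z
    have h2 := Fintype.linearIndependent_iff.1 hli
      (fun g => algebraMap K M (v (ψ g o))) (by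
        funext η
        rw [Finset.sum_apply, Pi.zero_apply, ← hcon η]
        simp only [θ, Finset.mul_sum]
        rw [Finset.sum_comm]
        refine Finset.sum_congr rfl fun g _ => ?_
        rw [Finset.sum_eq_single (ψ g o)]
        · rw [if_pos rfl]
          rfl
        · intro j _ hj
          rw [if_neg (fun h => hj h.symm), mul_zero]
        · intro h
          exact absurd (Finset.mem_univ _) h)
      1
    rw [map_one, Equiv.Perm.one_apply, map_eq_zero] at h2
    exact ho h2
  obtain ⟨η, hη⟩ := hne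
  set A : M := ∑ j, algebraMap K M (v j) * θ η j with hA
  refine ⟨fun i => ψ.symm ((π i)⁻¹) A, ?_, ?_, ?_⟩
  · intro i h
    exact hη ((map_eq_zero _).1 h)
  · intro i j
    rw [minpoly.algEquiv_eq, minpoly.algEquiv_eq]
  · have h1 : ∀ i, ψ.symm ((π i)⁻¹) A = ∑ j, algebraMap K M (x j i) * θ η j := by
      intro i
      rw [hA, map_sum]
      rw [← Equiv.sum_comp (π i)]
      refine Finset.sum_congr rfl fun j _ => ?_
      have h5 : (π i)⁻¹ (π i j) = j := (π i).symm_apply_apply j
      rw [map_mul, AlgEquiv.commutes, hθ, MulEquiv.apply_symm_apply, h5, hx]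
    simp only [h1, Finset.mul_sum]
    rw [Finset.sum_comm]
    refine Finset.sum_eq_zero fun j _ => ?_
    calc ∑ i, algebraMap K M (a i) * (algebraMap K M (x j i) * θ η j)
        = algebraMap K M (∑ i, a i * x j i) * θ η j := by
          rw [map_sum, Finset.sum_mul]
          refine Finset.sum_congr rfl fun i _ => ?_
          rw [map_mul, mul_assoc]
      _ = 0 := by rw [ha j, map_zero, zero_mul]

/-- Transport to the algebraic closure. -/
theorem conj_to_closure [Normal K M] {n : ℕ} (a : Fin n → K)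
    (h : ∃ α : Fin n → M, (∀ i, α i ≠ 0) ∧ (∀ i j, minpoly K (α i) = minpoly K (α j)) ∧
      ∑ i, algebraMap K M (a i) * α i = 0) :
    ∃ α : Fin n → AlgebraicClosure K,
      (∀ i, α i ≠ 0) ∧ (∀ i j, minpoly K (α i) = minpoly K (α j)) ∧
      ∑ i, algebraMap K (AlgebraicClosure K) (a i) * α i = 0 := by
  obtain ⟨α, h1, h2, h3⟩ := h
  let φ : M →ₐ[K] AlgebraicClosure K := IsAlgClosed.lift
  refine ⟨fun i => φ (α i), fun i h => h1 i ((map_eq_zero φ).1 h), fun i j => ?_, ?_⟩
  · rw [minpoly.algHom_eq φ φ.injective, minpoly.algHom_eq φ φ.injective, h2 i j]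
  · have := congrArg φ h3
    rw [map_sum, map_zero] at this
    rw [← this]
    refine Finset.sum_congr rfl fun i _ => ?_
    rw [map_mul, AlgHom.commutes]

end

end Pool.Agent.Y655.Sm
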