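import Mathlib
import Pool.Agent.H391R2.T4.Fin
import Pool.Agent.Y794.Sm.Stmts
import Pool.Agent.Y655.Sm.Gal0

/-!
Conjugates from permutations (task T6 for MP_ed3ef1_nt).
-/

set_option autoImplicit false

namespace Pool.Agent.Y655.Sm

open Pool.Agent.H391R2.T4

/-- Symmetric groups of every large degree over a number field. -/
theorem exists_sym (K : Type) [Field K] [NumberField K] : ∃ n₀ : ℕ, ∀ n ≥ n₀,
    ∃ (M : Type) (_ : Field M) (_ : Algebra K M) (_ : IsGalois K M),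
      Nonempty ((M ≃ₐ[K] M) ≃* Equiv.Perm (Fin n)) := by
  obtain ⟨n₀, h⟩ := hil_fin K K (K ≃ₐ[K] K) (MonoidHom.id _) (hilb_numberField K)
    (weakSol_of_split K K (K ≃ₐ[K] K) (MonoidHom.id _) (MonoidHom.id _) fun _ => rfl)
  refine ⟨n₀, fun n hn => ?_⟩
  obtain ⟨-, M, i1, i2, i3, ψ, -⟩ := h n hn
  exact ⟨M, i1, i2, i3, ⟨ψ⟩⟩

theorem stGal : Pool.Agent.Y794.Sm.StGal := by
  intro K _ _
  obtain ⟨n₀, h⟩ := exists_sym K
  refine ⟨n₀, fun N hN n a x π v hx ha hv => ?_⟩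
  obtain ⟨M, i1, i2, i3, ⟨ψ⟩⟩ := h N hN
  exact conj_to_closure a (conj_of_perm ψ a x π v hx ha hv)

end Pool.Agent.Y655.Sm
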