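import Mathlib
import Pool.Agent.Y794.Sm.Stmts

/-!
Relations between roots of unity (task T10 for MP_ed3ef1_nt).
-/

set_option autoImplicit false

open scoped NumberField
open Polynomial

namespace Pool.Agent.Y655.Sm

/-- An irreducible pure equation of a given degree over a number field. -/
theorem exists_pure (K : Type) [Field K] [NumberField K] (m : ℕ) (hm : 0 < m) :
    ∃ b : K, b ≠ 0 ∧ Irreducible (X ^ m - C b : K[X]) := by
  -- a nonzero prime ideal
  obtain ⟨P, hP0, hPp⟩ : ∃ P : Ideal (𝓞 K), P ≠ ⊥ ∧ P.IsPrime := by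
    obtain ⟨M, hM⟩ := Ideal.exists_maximal (𝓞 K)
    refine ⟨M, ?_, hM.isPrime⟩
    intro h
    exact Ring.ne_bot_of_isMaximal_of_not_isField hM (NumberField.RingOfIntegers.not_isField K) h
  have hlt : P ^ 2 < P := by
    have := Ideal.pow_succ_lt_pow (A := 𝓞 K) hP0 1
    simpa using this
  obtain ⟨b, hb1, hb2⟩ := Set.exists_of_ssubset hlt
  have hmon : (X ^ m - C b : (𝓞 K)[X]).Monic := monic_X_pow_sub_C b hm.ne'
  have heis : (X ^ m - C b : (𝓞 K)[X]).IsEisensteinAt P := by
    refine ⟨?_, ?_, ?_⟩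
    · rw [hmon.leadingCoeff]
      exact fun h => hPp.ne_top ((Ideal.eq_top_iff_one _).2 h)
    · intro k hk
      rw [natDegree_X_pow_sub_C] at hk
      rw [coeff_sub, coeff_X_pow, if_neg hk.ne, zero_sub, coeff_C]
      split_ifs
      · exact P.neg_mem hb1
      · simp
    · rw [coeff_sub, coeff_X_pow, if_neg hm.ne, zero_sub, coeff_C_zero]
      exact fun h => hb2 (by simpa using h)
  have hirr : Irreducible (X ^ m - C b : (𝓞 K)[X]) :=
    heis.irreducible hPp hmon.isPrimitive (by rw [natDegree_X_pow_sub_C]; exact hm)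
  refine ⟨algebraMap (𝓞 K) K b, ?_, ?_⟩
  · intro h
    have hb0 : b = 0 := by
      apply IsFractionRing.injective (𝓞 K) K
      rw [h, map_zero]
    exact hb2 (by rw [hb0]; exact Ideal.zero_mem _)
  · have := (hmon.irreducible_iff_irreducible_map_fraction_map (K := K)).1 hirr
    simpa using this

theorem stRoot : Pool.Agent.Y794.Sm.StRoot := by
  intro K _ _ n a ω hω hsum
  choose e he using hω
  set m : ℕ := ∏ i, e i with hm
  have hm0 : 0 < m := Finset.prod_pos fun i _ => (he i).1
  have hωm : ∀ i, ω i ^ m = 1 := by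
    intro i
    obtain ⟨c, hc⟩ : e i ∣ m := Finset.dvd_prod_of_mem _ (Finset.mem_univ i)
    rw [hc, pow_mul, (he i).2, one_pow]
  obtain ⟨b, hb, hirr⟩ := exists_pure K m hm0
  obtain ⟨γ, hγ⟩ := IsAlgClosed.exists_pow_nat_eq (algebraMap K (AlgebraicClosure K) b) hm0
  have hmon : (X ^ m - C b : K[X]).Monic := monic_X_pow_sub_C b hm0.ne'
  have hγ0 : γ ≠ 0 := by
    intro h
    rw [h, zero_pow hm0.ne'] at hγ
    exact hb ((map_eq_zero _).1 hγ.symm)
  have hω0 : ∀ i, ω i ≠ 0 := by
    intro i h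
    have := hωm i
    rw [h, zero_pow hm0.ne'] at this
    exact zero_ne_one this
  have hmin : ∀ i, minpoly K (ω i * γ) = X ^ m - C b := by
    intro i
    symm
    apply minpoly.eq_of_irreducible_of_monic hirr _ hmon
    rw [map_sub, map_pow, aeval_X, aeval_C, mul_pow, hωm, one_mul, hγ, sub_self]
  refine ⟨fun i => ω i * γ, fun i => mul_ne_zero (hω0 i) hγ0, fun i j => ?_, ?_⟩
  · rw [hmin, hmin]
  · have : ∑ i, algebraMap K (AlgebraicClosure K) (a i) * (ω i * γ) =
        (∑ i, algebraMap K (AlgebraicClosure K) (a i) * ω i) * γ := by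
      rw [Finset.sum_mul]
      exact Finset.sum_congr rfl fun i _ => (mul_assoc _ _ _).symm
    rw [this, hsum, zero_mul]

end Pool.Agent.Y655.Sm
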